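import Pool.Agent.H2.ST.Targets

/-! Closed 1-forms on affine space are exact. -/

set_option autoImplicit false

namespace Pool.Agent.H55.ST2

open Pool.Agent.H2.ST MvPolynomial

theorem degree_add_single {σ : Type} [Fintype σ] (s : σ →₀ ℕ) (j : σ) :
    (s + Finsupp.single j 1).degree = s.degree + 1 := by
  rw [map_add, Finsupp.degree_single]

/-- Euler's formula for the coefficients -/
theorem coeff_euler {k σ : Type} [Field k] [Fintype σ] [DecidableEq σ] (g : MvPolynomial σ k)
    (s : σ →₀ ℕ) : coeff s (∑ i, X i * pderiv i g) = (s.degree : k) * coeff s g := by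
  induction g using MvPolynomial.induction_on' with
  | monomial u a =>
    have h : (∑ i, X i * pderiv i (monomial u a)) = (u.degree : k) • monomial u a := by
      have h1 : ∀ i, X i * pderiv i (monomial u a) = (u i : k) • monomial u a := by
        intro i
        rw [X_mul_pderiv_monomial, Nat.cast_smul_eq_nsmul]
      rw [Finset.sum_congr rfl fun i _ => h1 i, ← Finset.sum_smul]
      congr 1
      rw [Finsupp.degree_eq_sum, Nat.cast_sum]
    rw [h, coeff_smul, smul_eq_mul, coeff_monomial]
    split_ifs with h2
    · rw [h2]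
    · rw [mul_zero, mul_zero]
  | add p q hp hq =>
    have h : (∑ i, X i * pderiv i (p + q)) =
        (∑ i, X i * pderiv i p) + ∑ i, X i * pderiv i q := by
      rw [← Finset.sum_add_distrib]
      refine Finset.sum_congr rfl fun i _ => ?_
      rw [map_add, mul_add]
    rw [h, coeff_add, hp, hq, coeff_add, mul_add]

theorem pf_POI : T_POI := by
  classical
  intro k σ _ _ _ _ G hG
  obtain ⟨S, hS⟩ : ∃ S : MvPolynomial σ k, S = ∑ i, X i * G i := ⟨_, rfl⟩
  refine ⟨∑ s ∈ S.support, monomial s (coeff s S / (s.degree : k)), fun j => ?_⟩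
  have hH : ∀ s, coeff s (∑ s ∈ S.support, monomial s (coeff s S / (s.degree : k))) =
      coeff s S / (s.degree : k) := by
    intro s
    rw [coeff_sum]
    simp only [coeff_monomial]
    rw [Finset.sum_ite_eq' S.support s]
    split_ifs with h
    · rfl
    · rw [notMem_support_iff.1 h, zero_div]
  have hdS : pderiv j S = G j + ∑ i, X i * pderiv i (G j) := by
    rw [hS, map_sum]
    have h1 : ∀ i, pderiv j (X i * G i) = (if i = j then G i else 0) + X i * pderiv i (G j) := by
      intro i
      rw [pderiv_mul, hG j i]
      split_ifs with h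
      · rw [h, pderiv_X_self, one_mul]
      · rw [pderiv_X_of_ne h, zero_mul]
    rw [Finset.sum_congr rfl fun i _ => h1 i, Finset.sum_add_distrib]
    congr 1
    rw [Finset.sum_ite_eq' Finset.univ j, if_pos (Finset.mem_univ j)]
  ext s
  have hn : ((s.degree : k) + 1) ≠ 0 := Nat.cast_add_one_ne_zero _
  have h2 : coeff s (pderiv j S) = ((s.degree : k) + 1) * coeff s (G j) := by
    rw [hdS, coeff_add, coeff_euler]
    ring
  rw [coeff_pderiv] at h2 ⊢
  rw [hH, degree_add_single, Nat.cast_add, Nat.cast_one, div_mul_eq_mul_div, h2]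
  field_simp

end Pool.Agent.H55.ST2
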