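import Pool.Agent.H2.ST.Targets

/-! The slice theorem. -/

set_option autoImplicit false

namespace Pool.Agent.H55.ST2

open Pool.Agent.H2.ST MvPolynomial

theorem pf_SLC : T_SLC := by
  intro R _ _ D hD s hs
  let Dh : R →+ R := AddMonoidHom.mk' D hD.add
  have hDh : ∀ x, Dh x = D x := fun _ => rfl
  have d0 : D 0 = 0 := by rw [← hDh, map_zero]
  have dsub : ∀ a b, D (a - b) = D a - D b := fun a b => by
    rw [← hDh, map_sub]
    rfl
  have dsum : ∀ (t : Finset ℕ) (F : ℕ → R), D (∑ i ∈ t, F i) = ∑ i ∈ t, D (F i) :=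
    fun t F => by
      rw [← hDh, map_sum]
      rfl
  have dq : ∀ (c : ℚ) (a : R), D (c • a) = c • D a := fun c a => by
    rw [← hDh, map_rat_smul Dh c a]
    rfl
  have d1 : D 1 = 0 := by
    have h := hD.mul 1 1
    rw [mul_one, one_mul] at h
    exact add_eq_left.1 h.symm
  have dk : ∀ a b, D a = 0 → D (a * b) = a * D b := fun a b h => by
    rw [hD.mul, h, mul_zero, add_zero]
  have dpow : ∀ n : ℕ, D (s ^ (n + 1)) = ((n : R) + 1) * s ^ n := by
    intro n
    induction n with
    | zero => rw [zero_add, pow_one, hs, Nat.cast_zero, zero_add, pow_zero, mul_one]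
    | succ n ih =>
      rw [pow_succ, hD.mul, ih, hs, Nat.cast_succ]
      ring
  -- good elements
  have gadd : ∀ a b : R, (∃ P : Polynomial R, (∀ i, D (P.coeff i) = 0) ∧ P.eval s = a) →
      (∃ P : Polynomial R, (∀ i, D (P.coeff i) = 0) ∧ P.eval s = b) →
      ∃ P : Polynomial R, (∀ i, D (P.coeff i) = 0) ∧ P.eval s = a + b := by
    rintro a b ⟨P, hP, rfl⟩ ⟨Q, hQ, rfl⟩
    refine ⟨P + Q, fun i => ?_, Polynomial.eval_add⟩
    rw [Polynomial.coeff_add, hD.add, hP, hQ, add_zero]
  have gmon : ∀ (a : R) (n : ℕ), D a = 0 →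
      ∃ P : Polynomial R, (∀ i, D (P.coeff i) = 0) ∧ P.eval s = a * s ^ n := by
    intro a n ha
    refine ⟨Polynomial.monomial n a, fun i => ?_, Polynomial.eval_monomial⟩
    rw [Polynomial.coeff_monomial]
    split_ifs
    · exact ha
    · exact d0
  have key : ∀ (N : ℕ) (f : R), D^[N] f = 0 →
      ∃ P : Polynomial R, (∀ i, D (P.coeff i) = 0) ∧ P.eval s = f := by
    intro N
    induction N with
    | zero =>
      intro f hf
      have hf' : f = 0 := hf
      refine ⟨0, fun i => ?_, ?_⟩
      · rw [Polynomial.coeff_zero, d0]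
      · rw [Polynomial.eval_zero, hf']
    | succ N ih =>
      intro f hf
      rw [Function.iterate_succ_apply] at hf
      obtain ⟨Q, hQ, hQs⟩ := ih (D f) hf
      rw [Polynomial.eval_eq_sum_range] at hQs
      have hc : ∀ i : ℕ, D (((1 : ℚ) / ((i : ℚ) + 1)) • Q.coeff i) = 0 := fun i => by
        rw [dq, hQ, smul_zero]
      have hgood : ∀ t : Finset ℕ, ∃ P : Polynomial R, (∀ i, D (P.coeff i) = 0) ∧
          P.eval s = ∑ i ∈ t, (((1 : ℚ) / ((i : ℚ) + 1)) • Q.coeff i) * s ^ (i + 1) := by
        classical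
        intro t
        induction t using Finset.induction_on with
        | empty =>
          refine ⟨0, fun i => ?_, ?_⟩
          · rw [Polynomial.coeff_zero, d0]
          · rw [Polynomial.eval_zero, Finset.sum_empty]
        | insert i t hi iht =>
          rw [Finset.sum_insert hi]
          exact gadd _ _ (gmon _ _ (hc i)) iht
      obtain ⟨h, hh⟩ : ∃ h : R, h = ∑ i ∈ Finset.range (Q.natDegree + 1),
          (((1 : ℚ) / ((i : ℚ) + 1)) • Q.coeff i) * s ^ (i + 1) := ⟨_, rfl⟩
      have hDh2 : D h = D f := by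
        rw [hh, dsum, ← hQs]
        refine Finset.sum_congr rfl fun i _ => ?_
        rw [dk _ _ (hc i), dpow, smul_mul_assoc]
        have h1 : Q.coeff i * (((i : R) + 1) * s ^ i) =
            ((i : ℚ) + 1) • (Q.coeff i * s ^ i) := by
          have h2 : ((i : ℚ) + 1) = ((i + 1 : ℕ) : ℚ) := by push_cast; ring
          rw [h2, Nat.cast_smul_eq_nsmul ℚ, nsmul_eq_mul]
          push_cast
          ring
        rw [h1, smul_smul]
        have h3 : (1 : ℚ) / ((i : ℚ) + 1) * ((i : ℚ) + 1) = 1 := by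
          have h4 : ((i : ℚ) + 1) ≠ 0 := by positivity
          field_simp
        rw [h3, one_smul]
      have h5 := gadd _ _ (hgood (Finset.range (Q.natDegree + 1)))
        (gmon (f - h) 0 (by rw [dsub, hDh2, sub_self]))
      rw [← hh, pow_zero, mul_one] at h5
      have h6 : h + (f - h) = f := by ring
      rwa [h6] at h5
  intro f
  obtain ⟨N, hN⟩ := hD.nil f
  exact key N f hN

end Pool.Agent.H55.ST2
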