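import Pool.Agent.H2.ST.Targets

/-! Commuting derivations with slices. -/

set_option autoImplicit false

namespace Pool.Agent.H55.ST2

open Pool.Agent.H2.ST MvPolynomial

/-- the common kernel -/
def kerS {k R ι : Type} [Field k] [CommRing R] [Algebra k R] (D : ι → Derivation k R R)
    (S : Finset ι) : Subalgebra k R where
  carrier := {g | ∀ i ∈ S, D i g = 0}
  mul_mem' := by
    intro a b ha hb i hi
    rw [Derivation.leibniz, ha i hi, hb i hi, smul_zero, smul_zero, add_zero]
  add_mem' := by
    intro a b ha hb i hi
    rw [map_add, ha i hi, hb i hi, add_zero]
  algebraMap_mem' := by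
    intro r i _
    exact Derivation.map_algebraMap _ _

theorem pf_MSL (h1 : T_SLC) : T_MSL := by
  intro k R ι _ _ _ _ _ _ D z hcomm hnil hz
  have key : ∀ (S : Finset ι) (f : R),
      f ∈ Algebra.adjoin k ({g | ∀ i ∈ S, D i g = 0} ∪ z '' S) := by
    intro S
    induction S using Finset.induction_on with
    | empty =>
      intro f
      exact Algebra.subset_adjoin (Or.inl fun i hi => absurd hi (Finset.notMem_empty i))
    | insert j S hj ih =>
      have hle : Algebra.adjoin k ({g | ∀ i ∈ S, D i g = 0} ∪ z '' S) ≤
          Algebra.adjoin k ({g | ∀ i ∈ insert j S, D i g = 0} ∪ z '' (insert j S : Finset ι)) := by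
        rw [Algebra.adjoin_le_iff]
        rintro g (hg | ⟨i, hi, rfl⟩)
        · let A := kerS D S
          let i1 : Algebra ℚ A := ((algebraMap k A).comp (algebraMap ℚ k)).toAlgebra
          have hst : ∀ a : A, D j (a : R) ∈ A := by
            intro a i hi
            rw [hcomm i j, a.2 i hi, map_zero]
          let D' : A → A := fun a => ⟨D j (a : R), hst a⟩
          have hLND : LND D' := by
            refine ⟨fun a b => ?_, fun a b => ?_, fun a => ?_⟩
            · exact Subtype.ext (map_add (D j) (a : R) b)
            · refine Subtype.ext ?_
              show D j ((a : R) * b) = (a : R) * D j b + (b : R) * D j a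
              rw [Derivation.leibniz]
              rfl
            · obtain ⟨n, hn⟩ := hnil j (a : R)
              refine ⟨n, ?_⟩
              have h2 : ∀ (n : ℕ) (a : A), ((D'^[n] a : A) : R) = (D j)^[n] (a : R) := by
                intro n
                induction n with
                | zero => intro a; rfl
                | succ n ihn =>
                  intro a
                  rw [Function.iterate_succ_apply, Function.iterate_succ_apply, ihn]
              refine Subtype.ext ?_
              rw [h2, hn]
              rfl
          have hzA : z j ∈ A := by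
            intro i hi
            rw [hz, if_neg]
            rintro rfl
            exact hj hi
          obtain ⟨P, hP, hPs⟩ := h1 A D' hLND ⟨z j, hzA⟩
            (Subtype.ext (by
              show D j (z j) = 1
              rw [hz, if_pos rfl])) ⟨g, hg⟩
          rw [Polynomial.eval_eq_sum_range] at hPs
          have h3 := congrArg (Subtype.val : A → R) hPs
          have h4 : g = ∑ i ∈ Finset.range (P.natDegree + 1), (P.coeff i : R) * z j ^ i := by
            have h5 : ∀ (t : Finset ℕ) (F : ℕ → A), ((∑ i ∈ t, F i : A) : R) =
                ∑ i ∈ t, (F i : R) := fun t F => map_sum A.val F t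
            exact h3.symm.trans ((h5 _ _).trans (Finset.sum_congr rfl fun i _ => rfl))
          show g ∈ _
          rw [h4]
          refine Subalgebra.sum_mem _ fun i _ => Subalgebra.mul_mem _ ?_
            (Subalgebra.pow_mem _ ?_ i)
          · refine Algebra.subset_adjoin (Or.inl fun l hl => ?_)
            rcases Finset.mem_insert.1 hl with rfl | hl
            · exact congrArg (Subtype.val : A → R) (hP i)
            · exact (P.coeff i).2 l hl
          · exact Algebra.subset_adjoin (Or.inr ⟨j, Finset.mem_coe.2 (Finset.mem_insert_self j S),
              rfl⟩)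
        · exact Algebra.subset_adjoin (Or.inr ⟨i, Finset.mem_coe.2
            (Finset.mem_insert_of_mem (Finset.mem_coe.1 hi)), rfl⟩)
      exact fun f => hle (ih f)
  intro f
  have h := key Finset.univ f
  refine Algebra.adjoin_mono ?_ h
  rintro g (hg | ⟨i, -, rfl⟩)
  · exact Or.inl fun i => hg i (Finset.mem_univ i)
  · exact Or.inr ⟨i, rfl⟩

end Pool.Agent.H55.ST2
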